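import Pool.Agent.W323.PT.Stm2

/-! Project PT, part PatB: soundness of the vertex patterns. -/

set_option autoImplicit false

namespace Pool.Agent.W853.PT

open Pool.Agent.W323.PT

theorem X_self (c : Pt) : X c c c c = c := by
  simp [X]

theorem vp_sound (hsg : S_sg) (P : Bool → ℕ → Pt) (σ : Bool → Bool → Bool → Bool) (hH : Hom 12 P σ)
    (lc : Bool) (rc : ℕ) (lx : Bool) (rx : ℕ) (ly : Bool) (ry rk : ℕ) (swx swy : Bool)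
    (hc : rc < 4) (hx : rx < 4) (hy : ry < 4) (hk : rk < 4) (h1 : rc ≠ rx) (h2 : rc ≠ ry) (h3 : rc ≠ rk)
    (h4 : rx ≠ ry) (h5 : rx ≠ rk) (h6 : ry ≠ rk)
    (hv : vp σ lc rc lx rx ly ry rk swx swy = true) : PatN 12 P := by
  have hs : ∀ u v w : Bool × ℕ, sg σ u v w = true → u.2 < 12 → v.2 < 12 → w.2 < 12 → u.2 ≠ v.2 →
      u.2 ≠ w.2 → v.2 ≠ w.2 → 0 < o (pt P u) (pt P v) (pt P w) :=
    fun u v w h a b c d e f => (hsg P σ hH u v w a b c d e f).1 h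
  unfold vp at hv
  simp only [Bool.and_eq_true] at hv
  obtain ⟨j1, hj1⟩ : ∃ j1 : ℕ, j1 = (if swx then 2 else 0) := ⟨_, rfl⟩
  obtain ⟨j2, hj2⟩ : ∃ j2 : ℕ, j2 = (if swx then 0 else 2) := ⟨_, rfl⟩
  obtain ⟨j3, hj3⟩ : ∃ j3 : ℕ, j3 = (if swy then 2 else 0) := ⟨_, rfl⟩
  obtain ⟨j4, hj4⟩ : ∃ j4 : ℕ, j4 = (if swy then 0 else 2) := ⟨_, rfl⟩
  rw [← hj1, ← hj2, ← hj3, ← hj4] at hv
  have hj12 : (j1 = 0 ∧ j2 = 2) ∨ (j1 = 2 ∧ j2 = 0) := by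
    cases swx <;> simp_all
  have hj34 : (j3 = 0 ∧ j4 = 2) ∨ (j3 = 2 ∧ j4 = 0) := by
    cases swy <;> simp_all
  clear hj1 hj2 hj3 hj4
  obtain ⟨⟨⟨⟨⟨⟨⟨⟨⟨⟨⟨⟨⟨a1, a2⟩, a3⟩, a4⟩, a5⟩, a6⟩, a7⟩, a8⟩, a9⟩, a10⟩, a11⟩, a12⟩, a13⟩, a14⟩ := hv
  refine ⟨![(lc, 3 * rc + 1), (lc, 3 * rc + 1), (lc, 3 * rc + 1), (lc, 3 * rc + 1),
    (lx, 3 * rx + j1), (lx, 3 * rx + j2), (ly, 3 * ry + j3), (ly, 3 * ry + j4)],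
    (lx, 3 * rx + 1), (ly, 3 * ry + 1), 3 * rk + 1, ?_, ?_, ?_, ?_, ?_, ?_, ?_, ?_, ?_⟩
  · intro l
    fin_cases l <;> simp <;> omega
  · dsimp only; omega
  · dsimp only; omega
  · omega
  · dsimp only; omega
  · dsimp only; omega
  · dsimp only; omega
  · intro l
    fin_cases l <;> simp <;> omega
  · show Pat (X (pt P (lc, 3 * rc + 1)) (pt P (lc, 3 * rc + 1)) (pt P (lc, 3 * rc + 1))
      (pt P (lc, 3 * rc + 1))) (pt P (lx, 3 * rx + j1)) (pt P (lx, 3 * rx + j2))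
      (pt P (ly, 3 * ry + j3)) (pt P (ly, 3 * ry + j4)) (pt P (lx, 3 * rx + 1))
      (pt P (ly, 3 * ry + 1)) (pt P (false, 3 * rk + 1)) (pt P (true, 3 * rk + 1))
    rw [X_self]
    refine ⟨⟨hs _ _ _ a1 ?_ ?_ ?_ ?_ ?_ ?_, hs _ _ _ a2 ?_ ?_ ?_ ?_ ?_ ?_,
      hs _ _ _ a3 ?_ ?_ ?_ ?_ ?_ ?_, hs _ _ _ a4 ?_ ?_ ?_ ?_ ?_ ?_, hs _ _ _ a5 ?_ ?_ ?_ ?_ ?_ ?_,
      hs _ _ _ a6 ?_ ?_ ?_ ?_ ?_ ?_⟩, ⟨hs _ _ _ a7 ?_ ?_ ?_ ?_ ?_ ?_, hs _ _ _ a8 ?_ ?_ ?_ ?_ ?_ ?_⟩,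
      ⟨hs _ _ _ a9 ?_ ?_ ?_ ?_ ?_ ?_, hs _ _ _ a10 ?_ ?_ ?_ ?_ ?_ ?_⟩,
      ⟨hs _ _ _ a11 ?_ ?_ ?_ ?_ ?_ ?_, hs _ _ _ a12 ?_ ?_ ?_ ?_ ?_ ?_⟩,
      ⟨hs _ _ _ a13 ?_ ?_ ?_ ?_ ?_ ?_, hs _ _ _ a14 ?_ ?_ ?_ ?_ ?_ ?_⟩⟩ <;> dsimp only <;> omega

theorem patb : S_sg → S_patB := by
  intro hsg P σ hH hp
  unfold patB at hp
  simp only [Bool.or_eq_true] at hp
  rcases hp with ((((((((((hp | hp) | hp) | hp) | hp) | hp) | hp) | hp) | hp) | hp) | hp) | hp <;>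
  exact vp_sound hsg P σ hH _ _ _ _ _ _ _ _ _ (by norm_num) (by norm_num) (by norm_num)
    (by norm_num) (by norm_num) (by norm_num) (by norm_num) (by norm_num) (by norm_num)
    (by norm_num) hp

end Pool.Agent.W853.PT
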